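import Pool.Agent.helper73.ASU.Spec2

set_option autoImplicit false

/-!
# ASU, block 2 (MP_f6e9a2_nt), row PVQ: Pólya-Vinogradov for the product of two characters
-/

namespace Pool.Agent.ASU

open Finset Pool.Agent.helper3.FT

private theorem PVQ_range (n : ℕ) [NeZero n] (f : ZMod n → ℂ) : ∑ y ∈ range n, f (y : ZMod n) = ∑ a : ZMod n, f a := by
  symm
  apply Finset.sum_nbij' (fun a : ZMod n => a.val) (fun y : ℕ => (y : ZMod n))
  · intro a _
    exact mem_range.mpr (ZMod.val_lt a)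
  · intro y _
    exact mem_univ _
  · intro a _
    exact ZMod.natCast_zmod_val a
  · intro y hy
    exact ZMod.val_cast_of_lt (mem_range.mp hy)
  · intro a _
    rw [ZMod.natCast_zmod_val]

private theorem PVQ_e (n : ℕ) [NeZero n] (h : ℤ) (y : ℕ) :
    e ((h : ℝ) * y / n) = ZMod.stdAddChar (N := n) ((h : ZMod n) * (y : ZMod n)) := by
  have h1 := ZMod.stdAddChar_coe (N := n) (h * y)
  have h2 : (((h * y : ℤ)) : ZMod n) = (h : ZMod n) * (y : ZMod n) := by push_cast; rfl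
  rw [h2] at h1
  rw [h1]
  unfold e
  congr 1
  push_cast
  ring

private theorem PVQ_gn {p : ℕ} [Fact p.Prime] {χ : MulChar (ZMod p) ℂ} (hχ : χ ≠ 1) :
    ‖gaussSum χ (ZMod.stdAddChar (N := p))‖ = Real.sqrt p := by
  have h1 := gaussSum_mul_gaussSum_eq_card hχ (ZMod.isPrimitive_stdAddChar p)
  rw [← star_gaussSum_eq] at h1
  have h2 : ‖gaussSum χ (ZMod.stdAddChar (N := p))‖ ^ 2 = (p : ℝ) := by
    have h3 := congrArg norm h1
    rw [norm_mul, norm_star] at h3
    rw [sq, h3]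
    simp [ZMod.card]
  rw [← h2, Real.sqrt_sq (norm_nonneg _)]

/-- the complete sum modulo a prime -/
private theorem PVQ_one (p : ℕ) [Fact p.Prime] (χ : DirichletCharacter ℂ p) (hχ : χ ≠ 1) (h : ℤ) :
    ‖∑ y ∈ range p, χ (y : ZMod p) * e ((h : ℝ) * y / p)‖ ≤ √(p : ℝ) := by
  have e1 : ∑ y ∈ range p, χ (y : ZMod p) * e ((h : ℝ) * y / p) =
      ∑ y ∈ range p, (fun a : ZMod p => χ a * ZMod.stdAddChar (N := p) ((h : ZMod p) * a)) (y : ZMod p) := by
    apply sum_congr rfl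
    intro y _
    rw [PVQ_e]
  rw [e1, PVQ_range p (fun a : ZMod p => χ a * ZMod.stdAddChar (N := p) ((h : ZMod p) * a))]
  by_cases h0 : (h : ZMod p) = 0
  · simp only [h0, zero_mul, AddChar.map_zero_eq_one, mul_one]
    rw [MulChar.sum_eq_zero_of_ne_one hχ, norm_zero]
    positivity
  · have h1 := gaussSum_mulShift χ (ZMod.stdAddChar (N := p)) (Units.mk0 _ h0)
    have h2 : gaussSum χ ((ZMod.stdAddChar (N := p)).mulShift ((Units.mk0 _ h0 : (ZMod p)ˣ) : ZMod p)) =
        ∑ a : ZMod p, χ a * ZMod.stdAddChar (N := p) ((h : ZMod p) * a) := by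
      unfold gaussSum
      apply sum_congr rfl
      intro a _
      rw [AddChar.mulShift_apply, Units.val_mk0]
    rw [h2] at h1
    have h3 : ‖χ ((Units.mk0 _ h0 : (ZMod p)ˣ) : ZMod p)‖ = 1 := χ.unit_norm_eq_one _
    have h4 := congrArg norm h1
    rw [norm_mul, h3, one_mul] at h4
    rw [h4]
    exact (PVQ_gn hχ).le

/-- the Chinese remainder theorem for sums -/
private theorem PVQ_crt (p q : ℕ) (hp : 0 < p) (hq : 0 < q) (hpq : Nat.Coprime p q) (g : ℕ → ℂ)
    (hg : ∀ x : ℕ, g (x % (p * q)) = g x) :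
    ∑ x ∈ range (p * q), g x = ∑ y ∈ range p, ∑ z ∈ range q, g (q * y + p * z) := by
  rw [← sum_product']
  have hinj : Set.InjOn (fun v : ℕ × ℕ => (q * v.1 + p * v.2) % (p * q)) ((range p ×ˢ range q : Finset (ℕ × ℕ)) : Set (ℕ × ℕ)) := by
    rintro ⟨y, z⟩ hv ⟨y', z'⟩ hv' h
    rw [mem_coe, mem_product, mem_range, mem_range] at hv hv'
    simp only at h hv hv'
    have hm : q * y + p * z ≡ q * y' + p * z' [MOD p * q] := h
    have h1 : q * y + p * z ≡ q * y' + p * z' [MOD p] := hm.of_mul_right q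
    have h2 : q * y + p * z ≡ q * y' + p * z' [MOD q] := hm.of_mul_left p
    have a1 : q * y ≡ q * y' [MOD p] := by
      have e1 : p * z ≡ 0 [MOD p] := (Nat.modEq_zero_iff_dvd).mpr (dvd_mul_right _ _)
      have e2 : p * z' ≡ 0 [MOD p] := (Nat.modEq_zero_iff_dvd).mpr (dvd_mul_right _ _)
      have h3 : q * y + 0 ≡ q * y' + 0 [MOD p] := ((Nat.ModEq.rfl.add e1).symm.trans h1).trans (Nat.ModEq.rfl.add e2)
      simpa using h3
    have a2 : p * z ≡ p * z' [MOD q] := by
      have e1 : q * y ≡ 0 [MOD q] := (Nat.modEq_zero_iff_dvd).mpr (dvd_mul_right _ _)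
      have e2 : q * y' ≡ 0 [MOD q] := (Nat.modEq_zero_iff_dvd).mpr (dvd_mul_right _ _)
      have h3 : 0 + p * z ≡ 0 + p * z' [MOD q] := ((e1.add Nat.ModEq.rfl).symm.trans h2).trans (e2.add Nat.ModEq.rfl)
      simpa using h3
    have b1 : y ≡ y' [MOD p] := Nat.ModEq.cancel_left_of_coprime hpq a1
    have b2 : z ≡ z' [MOD q] := Nat.ModEq.cancel_left_of_coprime hpq.symm a2
    have c1 : y = y' := by
      have := b1
      unfold Nat.ModEq at this
      rwa [Nat.mod_eq_of_lt hv.1, Nat.mod_eq_of_lt hv'.1] at this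
    have c2 : z = z' := by
      have := b2
      unfold Nat.ModEq at this
      rwa [Nat.mod_eq_of_lt hv.2, Nat.mod_eq_of_lt hv'.2] at this
    rw [c1, c2]
  have himg : (range p ×ˢ range q).image (fun v : ℕ × ℕ => (q * v.1 + p * v.2) % (p * q)) = range (p * q) := by
    apply eq_of_subset_of_card_le
    · intro x hx
      rw [mem_image] at hx
      obtain ⟨v, _, rfl⟩ := hx
      exact mem_range.mpr (Nat.mod_lt _ (Nat.mul_pos hp hq))
    · rw [card_image_of_injOn hinj, card_product, card_range, card_range, card_range]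
  rw [← himg, sum_image hinj]
  apply sum_congr rfl
  intro v _
  exact hg _

theorem PVQ (hPVG : PVG_stmt) : PVQ_stmt := by
  intro p q hp hq hpq χ ψ hχ hψ M
  have hp0 : 0 < p := hp.out.pos
  have hq0 : 0 < q := hq.out.pos
  have hpq0 : 0 < p * q := Nat.mul_pos hp0 hq0
  have hcop : Nat.Coprime p q := (Nat.coprime_primes hp.out hq.out).mpr hpq
  set f : ℤ → ℂ := fun x => χ (x : ZMod p) * (starRingEnd ℂ) (ψ (x : ZMod q)) with hf
  have hpr : (0 : ℝ) < p := by exact_mod_cast hp0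
  have hqr : (0 : ℝ) < q := by exact_mod_cast hq0
  set ψ' : DirichletCharacter ℂ q := ψ⁻¹ with hψ'
  have hconj : ∀ a : ZMod q, (starRingEnd ℂ) (ψ a) = ψ' a := by
    intro a
    rw [hψ', MulChar.inv_apply_eq_inv']
    by_cases ha : IsUnit a
    · obtain ⟨u, rfl⟩ := ha
      have h1 := ψ.unit_norm_eq_one u
      rw [Complex.inv_def, Complex.normSq_eq_norm_sq, h1]
      simp
    · rw [MulChar.map_nonunit ψ ha]; simp
  have hψ1 : ψ' ≠ 1 := by rw [hψ']; exact inv_ne_one.mpr hψ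
  have hfper : ∀ x : ℤ, f (x + ((p * q : ℕ) : ℤ)) = f x := by
    intro x
    simp only [hf]
    have e1 : ((x + ((p * q : ℕ) : ℤ) : ℤ) : ZMod p) = (x : ZMod p) := by
      push_cast; simp
    have e2 : ((x + ((p * q : ℕ) : ℤ) : ℤ) : ZMod q) = (x : ZMod q) := by
      push_cast; simp
    rw [e1, e2]
  have key : ∀ h : ℤ, ∑ x ∈ range (p * q), f (x : ℤ) * e ((h : ℝ) * x / ((p * q : ℕ) : ℝ)) =
      (χ (q : ZMod p) * ψ' (p : ZMod q)) * ((∑ y ∈ range p, χ (y : ZMod p) * e ((h : ℝ) * y / p)) *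
        ∑ z ∈ range q, ψ' (z : ZMod q) * e ((h : ℝ) * z / q)) := by
    intro h
    have hne : NeZero (p * q) := ⟨hpq0.ne'⟩
    rw [PVQ_crt p q hp0 hq0 hcop (fun x : ℕ => f (x : ℤ) * e ((h : ℝ) * x / ((p * q : ℕ) : ℝ)))]
    · rw [sum_mul_sum, mul_sum]
      apply sum_congr rfl
      intro y _
      rw [mul_sum]
      apply sum_congr rfl
      intro z _
      simp only [hf]
      have e1 : (((q * y + p * z : ℕ) : ℤ) : ZMod p) = (q : ZMod p) * (y : ZMod p) := by
        push_cast; simp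
      have e2 : (((q * y + p * z : ℕ) : ℤ) : ZMod q) = (p : ZMod q) * (z : ZMod q) := by
        push_cast; simp
      have e3 : e ((h : ℝ) * ((q * y + p * z : ℕ) : ℝ) / ((p * q : ℕ) : ℝ)) = e ((h : ℝ) * y / p) * e ((h : ℝ) * z / q) := by
        have e4 : (h : ℝ) * ((q * y + p * z : ℕ) : ℝ) / ((p * q : ℕ) : ℝ) = (h : ℝ) * y / p + (h : ℝ) * z / q := by
          push_cast
          field_simp
        rw [e4]
        unfold e
        rw [← Complex.exp_add]
        congr 1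
        push_cast
        ring
      rw [e1, e2, e3, hconj, map_mul, map_mul]
      ring
    · intro x
      have e1 : (((x % (p * q) : ℕ) : ℤ) : ZMod p) = ((x : ℤ) : ZMod p) := by
        rw [Int.cast_natCast, Int.cast_natCast, ZMod.natCast_eq_natCast_iff]
        exact (Nat.mod_modEq x (p * q)).of_mul_right q
      have e2 : (((x % (p * q) : ℕ) : ℤ) : ZMod q) = ((x : ℤ) : ZMod q) := by
        rw [Int.cast_natCast, Int.cast_natCast, ZMod.natCast_eq_natCast_iff]
        exact (Nat.mod_modEq x (p * q)).of_mul_left p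
      have e3 : e ((h : ℝ) * ((x % (p * q) : ℕ) : ℝ) / ((p * q : ℕ) : ℝ)) = e ((h : ℝ) * x / ((p * q : ℕ) : ℝ)) := by
        rw [PVQ_e (p * q) h (x % (p * q)), PVQ_e (p * q) h x, ZMod.natCast_mod]
      simp only [hf]
      rw [e1, e2, e3]
  have hn1 : ∀ a : ZMod p, ‖χ a‖ ≤ 1 := fun a => DirichletCharacter.norm_le_one χ a
  have hn2 : ∀ a : ZMod q, ‖ψ' a‖ ≤ 1 := fun a => DirichletCharacter.norm_le_one ψ' a
  have h3 := hPVG (p * q) f (√((p : ℝ) * q)) hpq0 (Real.sqrt_nonneg _) hfper (by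
    intro h
    rw [key h, norm_mul, norm_mul, norm_mul, Real.sqrt_mul hpr.le]
    have g1 := PVQ_one p χ hχ h
    have g2 := PVQ_one q ψ' hψ1 h
    have g3 : ‖χ (q : ZMod p)‖ * ‖ψ' (p : ZMod q)‖ ≤ 1 := mul_le_one₀ (hn1 _) (norm_nonneg _) (hn2 _)
    calc _ ≤ 1 * (√(p : ℝ) * √(q : ℝ)) := by
          apply mul_le_mul g3 _ (by positivity) zero_le_one
          exact mul_le_mul g1 g2 (norm_nonneg _) (Real.sqrt_nonneg _)
      _ = _ := one_mul _)
    (by
      have h0 := key 0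
      have h4 : ∑ y ∈ range p, χ (y : ZMod p) * e (((0 : ℤ) : ℝ) * y / p) = 0 := by
        have h5 : ∑ y ∈ range p, χ (y : ZMod p) * e (((0 : ℤ) : ℝ) * y / p) = ∑ y ∈ range p, (fun a : ZMod p => χ a) (y : ZMod p) := by
          apply sum_congr rfl
          intro y _
          simp [e]
        rw [h5, PVQ_range p (fun a : ZMod p => χ a), MulChar.sum_eq_zero_of_ne_one hχ]
      rw [h4, zero_mul, mul_zero] at h0
      rw [← h0]
      apply sum_congr rfl
      intro x _
      simp [e])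
    0 M
  have h6 : ∑ x ∈ Ioc (0 : ℤ) M, f x = ∑ m ∈ Icc 1 M, χ (m : ZMod p) * (starRingEnd ℂ) (ψ (m : ZMod q)) := by
    have h7 : Ioc (0 : ℤ) M = (Icc 1 M).image (fun m : ℕ => (m : ℤ)) := by
      ext x
      rw [mem_Ioc, mem_image]
      constructor
      · rintro ⟨a, b⟩
        refine ⟨x.toNat, ?_, Int.toNat_of_nonneg a.le⟩
        rw [mem_Icc]; omega
      · rintro ⟨m, hm, rfl⟩
        rw [mem_Icc] at hm
        omega
    rw [h7, sum_image (fun a _ b _ hab => by exact_mod_cast hab)]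
    apply sum_congr rfl
    intro m _
    simp only [hf, Int.cast_natCast]
  rw [h6] at h3
  rw [← Nat.cast_mul]
  push_cast at h3 ⊢
  exact h3

end Pool.Agent.ASU
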